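import Pool.Agent.FRD.Main

/-!
For every connected finite simple graph `G`, the largest number `f(G)` of vertices of an induced
forest satisfies `f(G) ≥ residue(G) + ⌈diam(G) / 3⌉`.

Definitions (file `Pool/Agent/FRD/Defs.lean`):

* `hhStep` : one Havel-Hakimi step on a list sorted in non-increasing order (remove the head `d`,
  subtract `1` from the next `d` entries, re-sort in non-increasing order);
* `residueList` : repeat `hhStep` until the head is `0`, then count the entries;
* `residue G` : `residueList` of the sorted degree sequence of `G`;
* `forestNumber G` : maximum of `S.card` over the vertex sets `S` with `G.induce S` acyclic.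

`SimpleGraph.diam` is Mathlib's diameter.
-/

namespace Pool.Agent.Results.MP_62f958_co.ForestResidueDiam

open Pool.Agent.FRD

/-- Every connected finite graph satisfies `residue + ⌈diam / 3⌉ ≤ f`. -/
theorem result : ∀ (V : Type) [Fintype V] (G : SimpleGraph V) [DecidableRel G.Adj],
    G.Connected → residue G + ⌈(G.diam : ℚ) / 3⌉₊ ≤ forestNumber G := by
  intro V _ G _ hG
  exact final G (mainProp G) hG

end Pool.Agent.Results.MP_62f958_co.ForestResidueDiam
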